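import Pool.Agent.MP_e3ece1_pr.Mg.PrimeNear

namespace Pool.Agent.Results.MP_e3ece1_pr.Disproof

open Pool.Agent.MP_e3ece1_pr

theorem result :
    ∃ μ : ℤ →₀ ℝ, Admissible μ ∧ ∃ H₂ H₃ : ℝ, IsEntropyRate μ 2 H₂ ∧ IsEntropyRate μ 3 H₃ ∧
      0 < H₂ ∧ 0 < H₃ ∧ ∃ ε : ℝ, 0 < ε ∧
        {q : ℕ | Nat.Prime q ∧ Nat.gcd q 6 = 1 ∧
          (∃ n : ℕ, (1 + ε) * Real.log q / H₂ ≤ n ∧ ε < tvDist μ 2 q n) ∧
          (∃ n : ℕ, (1 + ε) * Real.log q / H₃ ≤ n ∧ ε < tvDist μ 3 q n)}.Infinite := by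
  obtain ⟨μ, hμ, H₂, H₃, h2, h3, p2, p3, ε, hε, h⟩ := reduce (K := 170) (by norm_num)
  refine ⟨μ, hμ, H₂, H₃, h2, h3, p2, p3, ε, hε, ?_⟩
  generalize 3 ^ (4 * 170) = b at h
  refine (infinite_prime_near.diff (Set.finite_lt_nat (b + 4))).mono ?_
  rintro q ⟨⟨hq, n2, n3⟩, hb⟩
  have hb' : b + 4 ≤ q := not_lt.mp hb
  refine ⟨hq, ?_, h q (by omega) n2 n3⟩
  exact Nat.Coprime.mul_right ((Nat.coprime_primes hq Nat.prime_two).mpr (by omega))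
    ((Nat.coprime_primes hq Nat.prime_three).mpr (by omega))

end Pool.Agent.Results.MP_e3ece1_pr.Disproof
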